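import Mathlib

/-!
TF/PRM: a bound for products of the numbers `φ(p)`, `p` an odd prime or 4.
-/

set_option autoImplicit false

namespace Pool.Agent.N169.TF

open Finset

/-- `φ` of an odd prime or of 4 -/
def ph (x : ℕ) : ℕ := if x = 4 then 2 else x - 1

theorem card_odd_le (R : Finset ℕ) (m : ℕ) (hR : ∀ q ∈ R, q.Prime ∧ q % 2 = 1)
    (hm : ∀ q ∈ R, q ≤ m) : R.card ≤ (m - 1) / 2 := by
  have h1 : R.card ≤ (Icc 1 ((m - 1) / 2)).card := by
    apply card_le_card_of_injOn (fun q => (q - 1) / 2)
    · intro q hq
      have h2 := hR q hq
      have h3 := hm q hq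
      have h4 := h2.1.two_le
      have h5 := h2.2
      simp only [coe_Icc, Set.mem_Icc]
      omega
    · intro q hq q' hq' h
      have h2 := (hR q hq).2
      have h3 := (hR q' hq').2
      simp only at h
      omega
  simpa using h1

theorem prime_box4 (C : ℕ) (R : Finset ℕ) (hR : ∀ p ∈ R, (p.Prime ∧ p % 2 = 1) ∨ p = 4)
    (h4 : 4 ≤ R.card) (hC : ∀ T ⊆ R, T.card = 4 → 16 * C < ∏ p ∈ T, ph p) :
    C * (2 ^ R.card * (R.card - 1).factorial) < 6 * ∏ p ∈ R, ph p := by
  induction R using Finset.induction_on_max with
  | empty => simp at h4
  | insert p S hp ih =>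
    have hpS : p ∉ S := fun h => lt_irrefl p (hp p h)
    rw [card_insert_of_notMem hpS] at h4
    rw [card_insert_of_notMem hpS, prod_insert hpS]
    by_cases h3 : S.card = 3
    · have h5 := hC (insert p S) (Subset.refl _) (by rw [card_insert_of_notMem hpS, h3])
      rw [prod_insert hpS] at h5
      rw [h3]
      have h6 : C * (2 ^ (3 + 1) * (3 + 1 - 1).factorial) = 6 * (16 * C) := by
        have : (3 + 1 - 1).factorial = 6 := rfl
        rw [this]
        ring
      rw [h6]
      omega
    · have hS4 : 4 ≤ S.card := by omega
      have h5 := ih (fun q hq => hR q (mem_insert_of_mem hq)) hS4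
        (fun T hT => hC T (hT.trans (subset_insert p S)))
      -- the maximum is not 4
      have hp4 : p ≠ 4 := by
        rintro rfl
        have hsub : S ⊆ {3} := by
          intro q hq
          have h6 := hp q hq
          rcases hR q (mem_insert_of_mem hq) with h7 | h7
          · have h8 := h7.1.two_le
            have h9 := h7.2
            rw [mem_singleton]
            omega
          · omega
        have := card_le_card hsub
        rw [card_singleton] at this
        omega
      have hodd : ∀ q ∈ (insert p S).erase 4, q.Prime ∧ q % 2 = 1 := by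
        intro q hq
        rcases hR q (mem_of_mem_erase hq) with h7 | h7
        · exact h7
        · exact absurd h7 (ne_of_mem_erase hq)
      have h6 := card_odd_le ((insert p S).erase 4) p hodd (fun q hq => by
        rcases mem_insert.1 (mem_of_mem_erase hq) with rfl | hq
        · exact le_rfl
        · exact (hp q hq).le)
      have h6' : (insert p S).card - 1 ≤ ((insert p S).erase 4).card := pred_card_le_card_erase
      rw [card_insert_of_notMem hpS] at h6'
      have hph : ph p = p - 1 := if_neg hp4
      rw [hph]
      have h7 : 2 * S.card ≤ p - 1 := by omega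
      have h8 : 0 < p - 1 := by omega
      have h9 : (S.card + 1 - 1).factorial = S.card * (S.card - 1).factorial := by
        rw [Nat.add_sub_cancel]
        exact (Nat.mul_factorial_pred (by omega)).symm
      calc C * (2 ^ (S.card + 1) * (S.card + 1 - 1).factorial) =
            (C * (2 ^ S.card * (S.card - 1).factorial)) * (2 * S.card) := by
              rw [h9, pow_succ]
              ring
        _ ≤ (C * (2 ^ S.card * (S.card - 1).factorial)) * (p - 1) := Nat.mul_le_mul_left _ h7
        _ < (6 * ∏ p ∈ S, ph p) * (p - 1) := Nat.mul_lt_mul_of_pos_right h5 h8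
        _ = 6 * ((p - 1) * ∏ x ∈ S, ph x) := by ring

end Pool.Agent.N169.TF
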